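import Pool.Agent.W213.ED.Mono

set_option autoImplicit false

namespace Pool.Agent.Results.MP_56aee0_co.AlphaAndOddCycles

open Pool.Agent.W213.ED

/-- `gam G` is the eternal domination number (one guard moves per attack), written exactly as in the frozen
statement. For all finite graphs `G, H`:
(1) `α(G) γ∞(H) ≤ γ∞(G □ H)`;
(2) hence `γ∞(G) γ∞(H) ≤ γ∞(G □ H)` whenever `γ∞(G) = α(G)`;
(3) let `G' = G.comap e` be an induced subgraph of `G` (`e` injective), let `r` be a vertex of `G'` all of whose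
`G'`-neighbours lie in a nonempty independent set `P ∌ r` of `G'`, and for `p ∈ P` let `I p` be an independent
set of `G'` which avoids `P` and `r` and has no edge to `p`; then
`(Σ_p |I p| + 2|P|) γ∞(H) ≤ |P| γ∞(G □ H) + γ∞(H)`;
(4) if moreover all `I p ∪ {p}` have `a` elements, `γ∞(G) ≤ a + 1` and `γ∞(H) < |P|`, then
`γ∞(G) γ∞(H) ≤ γ∞(G □ H)`.
(5) For odd cycles of length `2k+1 ≥ 5`: `(2k+1) γ∞(H) ≤ 2 γ∞(C_{2k+1} □ H)`. -/
theorem result :
    (∀ (V W : Type) [Fintype V] [DecidableEq V] [Fintype W] [DecidableEq W]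
      (G : SimpleGraph V) (H : SimpleGraph W),
      G.indepNum * gam H ≤ gam (G.boxProd H) ∧
      (gam G = G.indepNum → gam G * gam H ≤ gam (G.boxProd H)) ∧
      (∀ (V' : Type) [Fintype V'] [DecidableEq V'] (e : V' → V), Function.Injective e →
        ∀ (r : V') (P : Finset V') (I : V' → Finset V'), P.Nonempty → r ∉ P →
        (∀ x ∈ P, ∀ y ∈ P, ¬ (G.comap e).Adj x y) → (∀ x, (G.comap e).Adj x r → x ∈ P) →
        (∀ p ∈ P, ∀ x ∈ I p, ∀ y ∈ I p, ¬ (G.comap e).Adj x y) →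
        (∀ p ∈ P, ∀ x ∈ I p, x ∉ P ∧ x ≠ r ∧ ¬ (G.comap e).Adj p x) →
        ((∑ p ∈ P, (I p).card) + 2 * P.card) * gam H ≤ P.card * gam (G.boxProd H) + gam H ∧
        (∀ a : ℕ, (∀ p ∈ P, (I p).card + 1 = a) → gam G ≤ a + 1 → gam H < P.card →
          gam G * gam H ≤ gam (G.boxProd H)))) ∧
    (∀ (W : Type) [Fintype W] [DecidableEq W] (H : SimpleGraph W) (k : ℕ), 2 ≤ k →
      (2 * k + 1) * gam H ≤ 2 * gam ((SimpleGraph.cycleGraph (2 * k + 1)).boxProd H)) := by
  refine ⟨?_, fun W _ _ H k hk => odd_bound H k hk⟩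
  intro V W _ _ _ _ G H
  have h1 : G.indepNum * gam H ≤ gam (G.boxProd H) := by
    obtain ⟨s, hs⟩ := G.exists_isNIndepSet_indepNum
    have h := indep_bound G H s (by
      intro x hx y hy hxy
      exact hs.isIndepSet hx hy (G.ne_of_adj hxy) hxy)
    rwa [hs.card_eq] at h
  refine ⟨h1, fun he => by rw [he]; exact h1, ?_⟩
  intro V' _ _ e he r P I a1 a2 a3 a4 a5 a6
  have hm := prod_mono G H e he
  have hb := star_bound (G.comap e) H r P I a1 a2 a3 a4 a5 a6
  have hb2 : ((∑ p ∈ P, (I p).card) + 2 * P.card) * gam H ≤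
      P.card * gam (G.boxProd H) + gam H :=
    hb.trans (Nat.add_le_add_right (Nat.mul_le_mul_left _ hm) _)
  refine ⟨hb2, fun a a7 a8 a9 => ?_⟩
  have hs : (∑ p ∈ P, (I p).card) + P.card = P.card * a := by
    have : ∑ p ∈ P, ((I p).card + 1) = ∑ _p ∈ P, a := Finset.sum_congr rfl a7
    rw [Finset.sum_add_distrib, Finset.sum_const, Finset.sum_const, smul_eq_mul, smul_eq_mul,
      mul_one] at this
    exact this
  have e2 : (∑ p ∈ P, (I p).card) + 2 * P.card = P.card * (a + 1) := by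
    rw [mul_add, mul_one]; omega
  rw [e2] at hb2
  refine (Nat.mul_le_mul_right (gam H) a8).trans ?_
  by_contra hc
  push Not at hc
  have h3 : P.card * (gam (G.boxProd H) + 1) ≤ P.card * ((a + 1) * gam H) := Nat.mul_le_mul_left _ hc
  rw [mul_add, mul_one, ← mul_assoc] at h3
  omega

end Pool.Agent.Results.MP_56aee0_co.AlphaAndOddCycles
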